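import Pool.Agent.NL.StmtsM

/-!
# NLO, row GND: consequences of genericity

`l = 0` gives the property itself, `N = 1` in EXT gives the property for almost every point.
-/

set_option autoImplicit false

open MeasureTheory Filter Topology Set

noncomputable section

namespace Pool.Agent.NL.H19

theorem gnd (hE : ExtStmt) : GndStmt := by
  classical
  intro X _ _ G Ψ W hW
  constructor
  · have h0 := hW 0
    rw [ae_iff] at h0
    by_contra hcon
    have hall : {a : Fin 0 → ℝ | ¬ Good G Ψ (W ∪ Finset.univ.image a)} = Set.univ := by
      ext a
      simp only [Set.mem_ofPred_eq, Set.mem_univ, iff_true]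
      have : (Finset.univ.image a : Finset ℝ) = ∅ := by
        simp
      rw [this, Finset.union_empty]
      exact hcon
    have h1 : volume (Set.univ : Set (Fin 0 → ℝ)) = 0 := by
      rw [← h0]
      congr 1
      exact hall.symm
    rw [volume_pi, Measure.pi_univ] at h1
    simp at h1
  · have h1 := hE (Good G Ψ) W hW 1
    have hmp := (volume_preserving_funUnique (Fin 1) ℝ).symm
    have h2 : ∀ᵐ x : ℝ, GnP (Good G Ψ)
        (W ∪ Finset.univ.image ((MeasurableEquiv.funUnique (Fin 1) ℝ).symm x)) :=
      hmp.quasiMeasurePreserving.ae h1
    filter_upwards [h2] with x hx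
    have himg : (Finset.univ.image ((MeasurableEquiv.funUnique (Fin 1) ℝ).symm x) : Finset ℝ)
        = {x} := by
      ext z
      simp [MeasurableEquiv.funUnique, eq_comm]
    rw [himg] at hx
    have hu : W ∪ {x} = insert x W := by
      rw [Finset.union_comm, Finset.insert_eq]
    rw [hu] at hx
    exact hx

end Pool.Agent.NL.H19
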